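import Pool.Agent.Helper21.MX.Hm
import Pool.Agent.Helper8.PQ.RunDefs
import Pool.Agent.Helper21.MG.Defs

/-!
# Sparse and dense comparisons together: definitions

The elements have random digits, every level has a random hash function of the cells and random
masks of the hash values.
-/

set_option autoImplicit false

namespace Pool.Agent.Helper21.MX

open Finset
open Pool.Agent.Helper22.ETModel Pool.Agent.Helper22.TSModel Pool.Agent.Helper22.EP
open Pool.Agent.Helper23.SP (pre sg Om g put supp Free)
open Pool.Agent.Helper8.ZT (pev covp LineOK)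
open Pool.Agent.Helper21.DS (cove)
open Pool.Agent.Helper8.PQ
open Pool.Agent.Helper21.MG (SparseForm)

variable {m n k b U M N d a D W R K : ℕ} [NeZero b]

/-- The background: deletion marks, masks of the hash values, and the noise. -/
abbrev BgM (m k U M N : ℕ) :=
  (E m → Bool) × (Fin k → Fin U → Fin M) × (E m → Fin (N + 1))

/-- The background of `Helper8.PQ` for fixed hash functions. -/
def cmp (H : Fin k → (Fin k → Fin b) → Fin U) (lam : BgM m k U M N) : Bg m k b M N :=
  (lam.1, fun i c => lam.2.1 i (H i c), lam.2.2)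

/-- The real values of the elements. -/
noncomputable def vrM (L Y Q : ℕ) (ω : Om (E m) k b U) (lam : BgM m k U M N) : E m → ℝ :=
  vr L Y Q ω.1 (cmp ω.2 lam)

/-- The part of the value of `e` that is revealed, when the elements of `S` are looked at. -/
noncomputable def rpM (L Y : ℕ) (S : Finset (E m)) (ω : Om (E m) k b U) (lam : BgM m k U M N) (e : E m) : ℤ :=
  (∑ i : Fin k, if e ∈ hm S ω i.val then
      (L : ℤ) * (Y : ℤ) ^ (k - 1 - i.val) * ((lam.2.1 i (g i ω e) : ℕ) : ℤ)
    else 0) +
  (if e ∈ hm S ω k then 2 * ((lam.2.2 e : ℕ) : ℤ) + par e else 0)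

/-- The ideal point. -/
noncomputable def iptM (L Y Q : ℕ) (S : Finset (E m)) (ω : Om (E m) k b U)
    (lam : BgM m k U M N) (e : E m) : ℝ :=
  if lam.1 e = true then vrM L Y Q ω lam e
  else if e ∈ S then (rpM L Y S ω lam e : ℝ) else 0

/-- The ideal answer to the query for the sign of `p`, if the elements of `S` are looked at. -/
noncomputable def idlM (L Y Q : ℕ) (p : MvPolynomial (E m) ℝ) (S : Finset (E m))
    (ω : Om (E m) k b U) (lam : BgM m k U M N) : SignType :=
  SignType.sign (MvPolynomial.eval (iptM L Y Q S ω lam) p)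

/-- The real answer to a sign query is the ideal answer, if the elements of `S` are looked at, and
this remains so when `x` gets the value of `y`, if `x` is not revealed on level `k`. -/
def GoodM (L Y Q : ℕ) (p : MvPolynomial (E m) ℝ) (S : Finset (E m)) (ω : Om (E m) k b U)
    (lam : BgM m k U M N) (x y : E m) : Prop :=
  SignType.sign (MvPolynomial.eval (vrM L Y Q ω lam) p) = idlM L Y Q p S ω lam ∧
  (lam.1 x = false → lam.1 y = false → x ≠ y → ω.1 y = ω.1 x → x ∉ hm S ω k →
    SignType.sign (MvPolynomial.eval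
      (Function.update (vrM L Y Q ω lam) x (vrM L Y Q ω lam y)) p) = idlM L Y Q p S ω lam)

open Classical in
/-- The elements that occur in a linear form. -/
noncomputable def sup (h : 3 * m ≤ n) (f : MvPolynomial (Fin n × Fin n) ℝ) : Finset (E m) :=
  univ.filter fun e => (qp h f).coeff (Finsupp.single e 1) ≠ 0

open Classical in
/-- The elements looked at by a sign query. -/
noncomputable def sset (h : 3 * m ≤ n) (s κ B s0 Q : ℕ) (Λ : ℝ) (δ : E m → Bool)
    (f : MvPolynomial (Fin n × Fin n) ℝ) : Finset (E m) :=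
  if SparseForm s κ B f then (if ∃ e ∈ sup h f, δ e = true then ∅ else sup h f)
  else (if (piv (Q : ℝ) Λ (qp h f) δ).card ≤ s0 then piv (Q : ℝ) Λ (qp h f) δ else ∅)

/-- The masks of every level have no short relation, and the noise of the deleted elements has no
short relation. -/
def SpOK (s c : ℕ) (lam : BgM m k U M N) : Prop :=
  (∀ i : Fin k, Free (fun u => ((lam.2.1 i u : Fin M) : ℕ)) s c) ∧
  ∀ γ : E m → ℤ, (supp γ).card ≤ s → (∀ e, |γ e| ≤ c) → (∃ e, lam.1 e = true ∧ γ e ≠ 0) →
    ∑ e, (if lam.1 e = true then γ e * ((lam.2.2 e : ℕ) : ℤ) else 0) ≠ 0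

open Classical in
/-- The elements looked at by a query. -/
noncomputable def SQM (h : 3 * m ≤ n) (s κ B s0 Q : ℕ) (Λ : ℝ) (δ : E m → Bool) :
    PolQ n d a → Finset (E m)
  | .sign f _ => sset h s κ B s0 Q Λ δ f
  | .zero f _ => cove h f

open Classical in
/-- The ideal answer of a query. -/
noncomputable def ianM (h : 3 * m ≤ n) (s κ B s0 L Y Q : ℕ) (Λ : ℝ)
    (ω : Om (E m) k b U) (lam : BgM m k U M N) : PolQ n d a → SignType
  | .sign f _ => idlM L Y Q (qp h f) (sset h s κ B s0 Q Λ lam.1 f) ω lam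
  | .zero f _ => if ∀ y, pev h f y = 0 then 0 else 1

/-- The process of an algorithm with fixed random bits and background. -/
noncomputable def procM (A : Alg n D W R (PolQ n d a) SignType) (h : 3 * m ≤ n)
    (s κ B s0 L Y Q : ℕ) (Λ : ℝ) (lam : BgM m k U M N) (ρ : Fin R → Bool) :
    HProc (E m) k b U (Fin W) where
  S t v := SQM h s κ B s0 Q Λ lam.1 (A.ask (flagOf h) ρ t v)
  nx t v ω := A.next (flagOf h) ρ t v (ianM h s κ B s0 L Y Q Λ ω lam (A.ask (flagOf h) ρ t v))

/-- For fixed flags and random bits all sign queries of `A` that are not sparse come from a list of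
`K` real polynomials. -/
def FewM (A : Alg n D W R (PolQ n d a) SignType) (s κ B K : ℕ) : Prop :=
  ∀ (fl : Fin n → Fin n → Bool) (ρ : Fin R → Bool),
    ∃ F : Fin K → MvPolynomial (Fin n × Fin n) ℝ,
      ∀ t < D, ∀ v f hf, A.ask fl ρ t v = .sign f hf → SparseForm s κ B f ∨ ∃ i, F i = f

/-- The element `(0, i, j)` has a mate and both are not deleted. -/
def TM (p : Fin m × Fin m) (ω : Om (E m) k b U) (δ : E m → Bool) : Prop :=
  δ (0, p.1, p.2) = false ∧ ∃ l : Fin m, δ (1, p.2, l) = false ∧
    ω.1 (1, p.2, l) = ω.1 (0, p.1, p.2)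

open Classical in
/-- A mate. -/
noncomputable def mte (p : Fin m × Fin m) (ω : Om (E m) k b U) (δ : E m → Bool) : Fin m :=
  if hM : TM p ω δ then Classical.choose hM.2 else p.1

open Classical in
/-- The data for which something goes wrong when `(0, i, j)` gets the value of its mate: `F` is the
list of all dense sign queries and `F'` the list of all sign queries. -/
noncomputable def BadM {K' : ℕ} (A : Alg n D W R (PolQ n d a) SignType) (h : 3 * m ≤ n)
    (F : Fin K → MvPolynomial (Fin n × Fin n) ℝ) (F' : Fin K' → MvPolynomial (Fin n × Fin n) ℝ)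
    (s κ s0 L Y Q : ℕ) (Λ : ℝ) (ρ : Fin R → Bool) (p : Fin m × Fin m) :
    Finset (Om (E m) k b U × BgM m k U M N) :=
  univ.filter fun z =>
    (∃ i, ¬ ((piv (Q : ℝ) Λ (qp h (F i)) z.2.1).card ≤ s0 ∧
      GoodM L Y Q (qp h (F i)) (piv (Q : ℝ) Λ (qp h (F i)) z.2.1) z.1 z.2
        (0, p.1, p.2) (1, p.2, mte p z.1 z.2.1))) ∨
    ¬ SpOK s (s * κ) z.2 ∨
    badZ A h F' ρ id (vrM L Y Q z.1 z.2) ∨
    badZ A h F' ρ (plt (0, p.1, p.2) (1, p.2, mte p z.1 z.2.1)) (vrM L Y Q z.1 z.2)

end Pool.Agent.Helper21.MX
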