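import Pool.Agent.Helper21.MX.Hm
import Pool.Agent.Helper23.SP.Defs2
import Pool.Agent.Helper17.SP.ReadLight
import Pool.Agent.Helper93.SP.ReadHeavy
import Pool.Agent.Helper30.SP.RevSucc

/-!
# The recursion over window lengths, for processes with mates by hash values
-/

set_option autoImplicit false

namespace Pool.Agent.Helper21.MX

open Finset
open Pool.Agent.Helper23.SP (pre Om g put lightSet heavySet rst rd)
open Pool.Agent.Helper54.SP (card_put g_put_self)

section cells

variable {E C : Type} [DecidableEq E] [DecidableEq C]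

private lemma window_main_union (c0 : E → C) (t : ℕ) (R : Finset E) :
    lightSet c0 t R ∪ heavySet c0 t R = R := by
  ext e
  simp only [lightSet, heavySet, mem_union, mem_filter]
  constructor
  · rintro (h | h) <;> exact h.1
  · intro h
    rcases Nat.lt_or_ge t (R.filter (fun e' => c0 e' = c0 e)).card with h1 | h1
    · exact Or.inr ⟨h, h1⟩
    · exact Or.inl ⟨h, h1⟩

omit [DecidableEq E] in
private lemma window_main_heavy_mono (c0 : E → C) (t : ℕ) {R R' : Finset E} (h : R ⊆ R') :
    heavySet c0 t R ⊆ heavySet c0 t R' := by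
  intro e he
  simp only [heavySet, mem_filter] at he ⊢
  exact ⟨h he.1, lt_of_lt_of_le he.2 (card_le_card (filter_subset_filter _ h))⟩

private lemma window_main_card_le (c0 : E → C) (t : ℕ) (R : Finset E) :
    R.card ≤ (lightSet c0 t R).card + (heavySet c0 t R).card := by
  conv_lhs => rw [← window_main_union c0 t R]
  exact card_union_le _ _

end cells

section pre

variable {k b : ℕ} [NeZero b]

/-- every class of `pre r` has `b ^ (k - r)` elements -/
private lemma window_main_card_pre {r : ℕ} (hr : r ≤ k) (y : Fin k → Fin b) :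
    b ^ r * (univ.filter (fun y' : Fin k → Fin b => pre r y' = pre r y)).card =
      Fintype.card (Fin k → Fin b) := by
  classical
  have h1 : (univ.filter (fun y' : Fin k → Fin b => pre r y' = pre r y)) =
      Fintype.piFinset (fun i : Fin k => if i.val < r then {y i} else univ) := by
    ext z
    rw [mem_filter, Fintype.mem_piFinset]
    constructor
    · rintro ⟨-, h⟩ i
      have h2 := congrFun h i
      unfold pre at h2
      split_ifs at h2 ⊢ with hi
      · rw [mem_singleton]; exact h2
      · exact mem_univ _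
    · intro h
      refine ⟨mem_univ _, ?_⟩
      funext i
      have h2 := h i
      unfold pre
      split_ifs at h2 ⊢ with hi
      · rw [mem_singleton] at h2; exact h2
      · rfl
  rw [h1, Fintype.card_piFinset]
  have h2 : ∀ i : Fin k, (if i.val < r then ({y i} : Finset (Fin b)) else univ).card =
      if i.val < r then 1 else b := by
    intro i
    split_ifs
    · exact card_singleton _
    · rw [card_univ, Fintype.card_fin]
  rw [prod_congr rfl fun i _ => h2 i, Fintype.card_fun, Fintype.card_fin, Fintype.card_fin]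
  have h3 : b ^ r = ∏ i : Fin k, if i.val < r then b else 1 := by
    rw [prod_ite, prod_const, prod_const_one, mul_one]
    congr 1
    have h4 : (univ.filter (fun i : Fin k => i.val < r)).card = (Finset.range r).card := by
      refine card_bij (fun i _ => i.val) ?_ ?_ ?_
      · intro i hi
        exact mem_range.2 (mem_filter.1 hi).2
      · intro i _ j _ h
        exact Fin.ext h
      · intro j hj
        have hj' := mem_range.1 hj
        exact ⟨⟨j, lt_of_lt_of_le hj' hr⟩, mem_filter.2 ⟨mem_univ _, hj'⟩, rfl⟩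
    rw [h4, card_range]
  rw [h3, ← prod_mul_distrib]
  have h5 : ∀ i : Fin k, ((if i.val < r then b else 1) * if i.val < r then 1 else b) = b := by
    intro i
    split_ifs <;> simp
  rw [prod_congr rfl fun i _ => h5 i, prod_const, card_univ, Fintype.card_fin]

private lemma window_main_key_inj (r : Fin k) {x x' : Fin k → Fin b} {y y' : Fin b}
    (h : Function.update (pre r.val x) r y = Function.update (pre r.val x') r y') :
    pre r.val x = pre r.val x' ∧ y = y' := by
  constructor
  · funext i
    by_cases hi : i = r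
    · subst hi
      simp [pre]
    · have := congrFun h i
      rwa [Function.update_of_ne hi, Function.update_of_ne hi] at this
  · have := congrFun h r
    rwa [Function.update_self, Function.update_self] at this

end pre

variable {El : Type} [Fintype El] [DecidableEq El] {k b U : ℕ} [NeZero b]

section light

variable {V : Type}

omit [Fintype El] in
private lemma window_main_pre_put (r : Fin k) (ω : Om El k b U)
    (ξ : (El → Fin b) × ((Fin k → Fin b) → Fin U)) (e : El) :
    pre r.val ((put r ω ξ).1 e) = pre r.val (ω.1 e) := by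
  funext i
  unfold pre put
  by_cases hi : i.val < r.val
  · have hne : i ≠ r := fun h => by subst h; exact lt_irrefl _ hi
    simp only [hi, if_true]
    rw [Function.update_of_ne hne]
  · simp only [hi, if_false]

/-- the sets read -/
private noncomputable def window_main_S (P : HProc El k b U V) (r : Fin k) (t0 : ℕ)
    (ω0 : Om El k b U) (i : ℕ) (v : V) : Finset El := hm (P.S (t0 + i) v) ω0 r.val

/-- the transition function -/
private def window_main_nx (P : HProc El k b U V) (r : Fin k) (t0 : ℕ) (ω0 : Om El k b U)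
    (i : ℕ) (v : V) (ξ : (El → Fin b) × ((Fin k → Fin b) → Fin U)) : V :=
  P.nx (t0 + i) v (put r ω0 ξ)

omit [Fintype El] in
private lemma window_main_rst (P : HProc El k b U V) (r : Fin k) (t0 : ℕ)
    (ω0 : Om El k b U) (v : V) (ξ : (El → Fin b) × ((Fin k → Fin b) → Fin U)) (i : ℕ) :
    rst (window_main_nx P r t0 ω0) v ξ i = P.st (put r ω0 ξ) t0 v i := by
  induction i with
  | zero => rfl
  | succ i ih =>
    rw [st_succ, ← ih]
    rfl

omit [Fintype El] in
private lemma window_main_rd (P : HProc El k b U V) (r : Fin k) (t0 : ℕ)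
    (ω0 : Om El k b U) (v : V) (ξ : (El → Fin b) × ((Fin k → Fin b) → Fin U)) (τ : ℕ) :
    rd (window_main_S P r t0 ω0) (window_main_nx P r t0 ω0) v ξ τ =
      P.rev (put r ω0 ξ) t0 v τ r.val := by
  ext e
  rw [mem_rev]
  unfold rd
  rw [mem_biUnion]
  constructor
  · rintro ⟨i, hi, h⟩
    rw [window_main_rst] at h
    refine ⟨i, mem_range.1 hi, ?_⟩
    rw [hm_put_le le_rfl]
    exact h
  · rintro ⟨i, hi, h⟩
    refine ⟨i, mem_range.2 hi, ?_⟩
    rw [window_main_rst]
    rw [hm_put_le le_rfl] at h
    exact h

open Classical in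
private lemma window_main_light [Fintype V] [DecidableEq V] (P : HProc El k b U V) {s : ℕ}
    (hP : P.OK s) (r : Fin k) (t0 : ℕ) (v : V) (τ A t x0 : ℕ)
    (h : 5 * A * (t * U + A * b) ≤ x0 * b * U) :
    (univ.filter (fun ω : Om El k b U =>
      (P.rev ω t0 v τ r.val).card ≤ A ∧
      x0 + ((lightSet (fun e => pre r.val (ω.1 e)) t (P.rev ω t0 v τ r.val)).image
        (g r ω)).card ≤
        (lightSet (fun e => pre r.val (ω.1 e)) t (P.rev ω t0 v τ r.val)).card)).card *
      2 ^ x0 ≤ Fintype.card (Om El k b U) := by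
  apply card_put r
  intro ω
  have h1 := Pool.Agent.Helper17.SP.read_light (El := El) (G := Fin k → Fin b) (V := V)
    (C := Fin k → Fin b) (b := b) (U := U) (fun e => pre r.val (ω.1 e))
    (fun e y => Function.update (pre r.val (ω.1 e)) r y)
    (fun e y e' y' hk => window_main_key_inj r hk) (window_main_S P r t0 ω)
    (window_main_nx P r t0 ω)
    (fun i v ξ ξ' hξ => hP.loc (t0 + i) v r ω ξ ξ' hξ)
    v τ A t x0 h
  refine le_trans (Nat.mul_le_mul_right _ (card_le_card fun ξ hξ => ?_)) h1
  rw [mem_filter, mem_filter] at hξ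
  obtain ⟨-, -, h2, h3⟩ := hξ
  refine (@mem_filter _ _ (_) _ _).2 ⟨mem_univ _, ?_⟩
  rw [window_main_rd]
  refine ⟨h2, ?_⟩
  simp only [window_main_pre_put] at h3
  have himg : (lightSet (fun e => pre r.val (ω.1 e)) t
      (P.rev (put r ω ξ) t0 v τ r.val)).image
        (fun e => ξ.2 (Function.update (pre r.val (ω.1 e)) r (ξ.1 e)))
      = (lightSet (fun e => pre r.val (ω.1 e)) t
      (P.rev (put r ω ξ) t0 v τ r.val)).image (g r (put r ω ξ)) := by
    apply image_congr
    intro e _
    exact (g_put_self r ω ξ e).symm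
  rw [himg]
  exact h3

end light

section heavy

variable {V : Type}

omit [Fintype El] in
private lemma window_main_rst0 (P : HProc El k b U V) (t0 : ℕ) (v : V)
    (h : Fin k → (Fin k → Fin b) → Fin U) (dg : El → Fin k → Fin b) (i : ℕ) :
    rst (fun i v dg => P.nx (t0 + i) v (dg, h)) v dg i = P.st (dg, h) t0 v i := by
  induction i with
  | zero => rfl
  | succ i ih =>
    rw [st_succ, ← ih]
    rfl

omit [Fintype El] in
private lemma window_main_rd0 (P : HProc El k b U V) (t0 : ℕ) (v : V)
    (h : Fin k → (Fin k → Fin b) → Fin U) (dg : El → Fin k → Fin b) (τ : ℕ) :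
    rd (fun i v => P.S (t0 + i) v) (fun i v dg => P.nx (t0 + i) v (dg, h)) v dg τ
      = P.rev (dg, h) t0 v τ 0 := by
  ext e
  rw [mem_rev]
  unfold rd
  rw [mem_biUnion]
  constructor
  · rintro ⟨i, hi, h⟩
    rw [window_main_rst0] at h
    exact ⟨i, mem_range.1 hi, by rw [hm_zero]; exact h⟩
  · rintro ⟨i, hi, h⟩
    refine ⟨i, mem_range.2 hi, ?_⟩
    rw [window_main_rst0]
    rwa [hm_zero] at h

open Classical in
private lemma window_main_heavy [Fintype V] [DecidableEq V] (P : HProc El k b U V) {s : ℕ}
    (hP : P.OK s) {r : ℕ} (hr : r ≤ k) (t0 : ℕ) (v : V) (τ t y : ℕ)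
    (h20 : 20 * (s * τ) ≤ b ^ r) (ht : 2 * b ^ r ≤ 2 ^ t) :
    (univ.filter (fun ω : Om El k b U =>
      y ≤ (heavySet (fun e => pre r (ω.1 e)) t (P.rev ω t0 v τ 0)).card)).card * 2 ^ y ≤
      3 * Fintype.card (Om El k b U) := by
  have key : ∀ h : Fin k → (Fin k → Fin b) → Fin U,
      (univ.filter (fun x : El → Fin k → Fin b =>
        y ≤ (heavySet (fun e => pre r (x e)) t (P.rev (x, h) t0 v τ 0)).card)).card * 2 ^ y ≤
        3 * Fintype.card (El → Fin k → Fin b) := by
    intro h
    have h1 := Pool.Agent.Helper93.SP.read_heavy (El := El) (Y := Fin k → Fin b) (V := V)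
      (C := Fin k → Fin b) (pre r) (b ^ r) (window_main_card_pre hr) (fun i v => P.S (t0 + i) v)
      (fun i v dg => P.nx (t0 + i) v (dg, h))
      (fun i v dg dg' hd => hP.full (t0 + i) v (dg, h) (dg', h) rfl hd) v τ (s * τ) t y
      (fun dg => by rw [window_main_rd0]; exact rev_card_le hP _ _ _ _ _) h20 ht
    simp only [window_main_rd0] at h1
    exact h1
  have h2 : (univ.filter (fun ω : Om El k b U =>
      y ≤ (heavySet (fun e => pre r (ω.1 e)) t (P.rev ω t0 v τ 0)).card)).card =
      ∑ h : Fin k → (Fin k → Fin b) → Fin U, (univ.filter (fun x : El → Fin k → Fin b =>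
        y ≤ (heavySet (fun e => pre r (x e)) t (P.rev (x, h) t0 v τ 0)).card)).card := by
    simp only [card_filter]
    exact Fintype.sum_prod_type_right _
  rw [h2, sum_mul]
  refine (sum_le_sum fun h _ => key h).trans (le_of_eq ?_)
  rw [sum_const, card_univ, Fintype.card_prod, smul_eq_mul]
  ring

end heavy

omit [Fintype El] in
private lemma window_main_succ {V : Type} (P : HProc El k b U V) (ω : Om El k b U)
    (r : Fin k) (t0 : ℕ) (v : V) (τ x0 : ℕ)
    (h : (P.rev ω t0 v τ r.val).card <
      x0 + ((P.rev ω t0 v τ r.val).image (g r ω)).card) :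
    (P.rev ω t0 v τ (r.val + 1)).card ≤ 2 * x0 := by
  have hsub : P.rev ω t0 v τ (r.val + 1) ⊆ (P.rev ω t0 v τ r.val).filter
      (fun e => 2 ≤ ((P.rev ω t0 v τ r.val).filter
        (fun a => g r ω a = g r ω e)).card) := by
    intro e he
    rw [mem_rev] at he
    obtain ⟨i, hi, hm1⟩ := he
    rw [mem_hm_succ] at hm1
    obtain ⟨heS, hor⟩ := hm1
    obtain ⟨e', he'S, hne, hg⟩ := hor r rfl
    have hme : e ∈ P.rev ω t0 v τ r.val := mem_rev.2 ⟨i, hi, heS⟩
    have hme' : e' ∈ P.rev ω t0 v τ r.val := mem_rev.2 ⟨i, hi, he'S⟩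
    rw [mem_filter]
    refine ⟨hme, ?_⟩
    have : 1 < ((P.rev ω t0 v τ r.val).filter
        (fun a => g r ω a = g r ω e)).card := by
      rw [one_lt_card]
      exact ⟨e', mem_filter.2 ⟨hme', hg⟩, e, mem_filter.2 ⟨hme, rfl⟩, hne⟩
    omega
  have h1 := card_le_card hsub
  have h2 := Pool.Agent.Helper30.SP.card_mates (P.rev ω t0 v τ r.val) (g r ω)
  omega

open Classical in
/-- The event of many collisions in light cells. -/
private noncomputable def window_main_evL {W : ℕ} (P : HProc El k b U (Fin W)) (x A t τ : ℕ)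
    (t0 : ℕ) (v : Fin W) (r : Fin k) : Finset (Om El k b U) :=
  univ.filter (fun ω : Om El k b U =>
      (P.rev ω t0 v τ r.val).card ≤ A ∧
      x + ((lightSet (fun e => pre r.val (ω.1 e)) t (P.rev ω t0 v τ r.val)).image
        (g r ω)).card ≤
        (lightSet (fun e => pre r.val (ω.1 e)) t (P.rev ω t0 v τ r.val)).card)

open Classical in
/-- The event of many elements in heavy cells. -/
private noncomputable def window_main_evH {W : ℕ} (P : HProc El k b U (Fin W)) (y t τ : ℕ)
    (t0 : ℕ) (v : Fin W) (r : Fin k) : Finset (Om El k b U) :=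
  univ.filter (fun ω : Om El k b U =>
      y ≤ (heavySet (fun e => pre r.val (ω.1 e)) t (P.rev ω t0 v τ 0)).card)

private lemma window_main_evL_card {W : ℕ} (P : HProc El k b U (Fin W)) {s : ℕ} (hP : P.OK s)
    {x A t τ : ℕ}
    (h : 5 * A * (t * U + A * b) ≤ x * b * U) (t0 : ℕ) (v : Fin W) (r : Fin k) :
    (window_main_evL P x A t τ t0 v r).card * 2 ^ x ≤ Fintype.card (Om El k b U) := by
  classical
  have key := window_main_light P hP r t0 v τ A t x h
  unfold window_main_evL
  convert key

private lemma window_main_evH_card {W : ℕ} (P : HProc El k b U (Fin W)) {s : ℕ} (hP : P.OK s)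
    {x t τ : ℕ} (t0 : ℕ) (v : Fin W) (r : Fin k) (h20 : 20 * (s * τ) ≤ b ^ r.val)
    (ht : 2 * b ^ r.val ≤ 2 ^ t) :
    (window_main_evH P (x + 2) t τ t0 v r).card * 2 ^ x ≤
      Fintype.card (Om El k b U) := by
  classical
  have key := window_main_heavy P hP r.isLt.le t0 v τ t (x + 2) h20 ht
  have key' : (window_main_evH P (x + 2) t τ t0 v r).card * 2 ^ (x + 2) ≤
      3 * Fintype.card (Om El k b U) := by
    unfold window_main_evH
    convert key
  rw [pow_add] at key'
  have e1 : (window_main_evH P (x + 2) t τ t0 v r).card * (2 ^ x * 2 ^ 2) =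
      4 * ((window_main_evH P (x + 2) t τ t0 v r).card * 2 ^ x) := by ring
  rw [e1] at key'
  omega

/-- The bad set: `τ r` is the length of the windows considered on level `r`. -/
private noncomputable def window_main_bad {W : ℕ} (P : HProc El k b U (Fin W))
    (x β t l T r0 : ℕ) : Finset (Om El k b U) := by
  classical
  exact (univ : Finset (Fin T × Fin W × Fin k × Bool)).biUnion fun i =>
    if r0 ≤ i.2.2.1.val then
      (if i.2.2.2 then
        window_main_evL P x (6 * x * β) t (l * β ^ (i.2.2.1.val - r0 + 1)) i.1.val i.2.1 i.2.2.1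
      else
        window_main_evH P (x + 2) t (l * β ^ (i.2.2.1.val - r0 + 1)) i.1.val i.2.1 i.2.2.1)
    else ∅

/-- The windows. As `Pool.Agent.Helper8.SP.window_main2`, with the revealed elements `hm`. -/
theorem window_mainM {W : ℕ} (P : HProc El k b U (Fin W)) {s : ℕ} (hP : P.OK s)
    {x β t l T r0 : ℕ} (hx : 1 ≤ x) (hβ : 1 ≤ β) (ht : 1 ≤ t) (hl : s * l ≤ x)
    (hb : b = 60 * β * t) (hU : U = b ^ 2 * x) (ht2 : 2 * b ^ k ≤ 2 ^ t) (hr0 : r0 ≤ k)
    (hr01 : 20 * x * β ≤ b ^ r0) :
    ∃ Bad : Finset (Om El k b U),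
      Bad.card * 2 ^ x ≤ 2 * T * W * k * Fintype.card (Om El k b U) ∧
      ∀ ω, ω ∉ Bad → ∀ t0 v, t0 + l * β ^ (k - r0) ≤ T →
        (P.rev ω t0 v (l * β ^ (k - r0)) k).card ≤ 6 * x := by
  classical
  have hb1 : 1 ≤ b := Nat.pos_of_ne_zero (NeZero.ne b)
  have hβb : β ≤ b := by
    rw [hb]; nlinarith
  have hA : 5 * (6 * x * β) * (t * U + (6 * x * β) * b) ≤ x * b * U := by
    have h1 : 6 * β ≤ t * b := by
      rw [hb]
      have : 1 ≤ t * t := Nat.mul_pos ht ht
      nlinarith
    have h2 : 5 * (6 * x * β) * (t * U + (6 * x * β) * b) =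
        x * b * x * (30 * β * (t * b + 6 * β)) := by
      rw [hU]; ring
    have h3 : x * b * U = x * b * x * ((60 * β * t) * b) := by rw [← hb, hU]; ring
    rw [h2, h3]
    apply Nat.mul_le_mul_left
    calc 30 * β * (t * b + 6 * β) ≤ 30 * β * (t * b + t * b) := by
          apply Nat.mul_le_mul_left; omega
      _ = 60 * β * t * b := by ring
  have hsτ : ∀ r : ℕ, r0 ≤ r → 20 * (s * (l * β ^ (r - r0 + 1))) ≤ b ^ r := by
    intro r hr
    calc 20 * (s * (l * β ^ (r - r0 + 1))) = 20 * (s * l) * β * β ^ (r - r0) := by ring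
      _ ≤ 20 * x * β * β ^ (r - r0) := by gcongr
      _ ≤ b ^ r0 * b ^ (r - r0) := by gcongr
      _ = b ^ r := by rw [← pow_add]; congr 1; omega
  have h2t : ∀ r : ℕ, r ≤ k → 2 * b ^ r ≤ 2 ^ t := by
    intro r hr
    exact (Nat.mul_le_mul_left _ (Nat.pow_le_pow_right hb1 hr)).trans ht2
  refine ⟨window_main_bad P x β t l T r0, ?_, ?_⟩
  · unfold window_main_bad
    have hcard : Fintype.card (Fin T × Fin W × Fin k × Bool) = 2 * T * W * k := by
      simp only [Fintype.card_prod, Fintype.card_fin, Fintype.card_bool]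
      ring
    rw [← hcard]
    refine (Nat.mul_le_mul_right _ card_biUnion_le).trans ?_
    rw [sum_mul]
    refine (sum_le_card_nsmul _ _ (Fintype.card (Om El k b U)) ?_).trans ?_
    · rintro ⟨t1, v, r, o⟩ _
      dsimp only
      split_ifs with h1 h2
      · exact window_main_evL_card P hP hA _ _ _
      · exact window_main_evH_card P hP _ _ _ (hsτ _ h1) (h2t _ r.isLt.le)
      · simp
    · rw [card_univ, smul_eq_mul]
  · intro ω hω
    have hLn : ∀ t0 < T, ∀ (v : Fin W) (r : Fin k), r0 ≤ r.val →
        ω ∉ window_main_evL P x (6 * x * β) t (l * β ^ (r.val - r0 + 1)) t0 v r := by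
      intro t0 ht0 v r hr h
      apply hω
      unfold window_main_bad
      rw [mem_biUnion]
      refine ⟨(⟨t0, ht0⟩, v, r, true), mem_univ _, ?_⟩
      rw [if_pos hr, if_pos rfl]
      exact h
    have hHn : ∀ t0 < T, ∀ (v : Fin W) (r : Fin k), r0 ≤ r.val →
        ω ∉ window_main_evH P (x + 2) t (l * β ^ (r.val - r0 + 1)) t0 v r := by
      intro t0 ht0 v r hr h
      apply hω
      unfold window_main_bad
      rw [mem_biUnion]
      refine ⟨(⟨t0, ht0⟩, v, r, false), mem_univ _, ?_⟩
      rw [if_pos hr, if_neg (by simp)]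
      exact h
    have main : ∀ d : ℕ, r0 + d ≤ k → ∀ t0 v, t0 + l * β ^ d ≤ T →
        (P.rev ω t0 v (l * β ^ d) (r0 + d)).card ≤ 6 * x := by
      intro d
      induction d with
      | zero =>
        intro _ t0 v _
        refine (rev_card_le hP ω t0 v _ _).trans ?_
        rw [pow_zero, mul_one]
        omega
      | succ d ih =>
        intro hr t0 v hT
        have hr' : r0 + d < k := by omega
        rcases Nat.eq_zero_or_pos (l * β ^ (d + 1)) with h0 | hpos
        · rw [h0]
          refine (rev_card_le hP ω t0 v _ _).trans ?_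
          simp
        have htT : t0 < T := by omega
        have hpow : l * β ^ (d + 1) = β * (l * β ^ d) := by ring
        -- bound on level `r0 + d`
        have hR : (P.rev ω t0 v (l * β ^ (d + 1)) (r0 + d)).card ≤ 6 * x * β := by
          have h1 : (P.rev ω t0 v (β * (l * β ^ d)) (r0 + d)).card ≤ β * (6 * x) := by
            apply rev_mul_card
            intro j hj
            apply ih (by omega)
            have h2 : j * (l * β ^ d) + l * β ^ d ≤ β * (l * β ^ d) := by
              calc j * (l * β ^ d) + l * β ^ d = (j + 1) * (l * β ^ d) := by ring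
                _ ≤ β * (l * β ^ d) := Nat.mul_le_mul_right _ hj
            rw [hpow] at hT
            omega
          rw [hpow]
          exact h1.trans (le_of_eq (by ring))
        have hexp : r0 + d - r0 + 1 = d + 1 := by omega
        have hL := hLn t0 htT v ⟨r0 + d, hr'⟩ (Nat.le_add_right _ _)
        have hH := hHn t0 htT v ⟨r0 + d, hr'⟩ (Nat.le_add_right _ _)
        dsimp only at hL hH
        rw [hexp] at hL hH
        unfold window_main_evL at hL
        unfold window_main_evH at hH
        rw [mem_filter] at hL hH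
        dsimp only at hL hH
        have hH1 : (heavySet (fun e => pre (r0 + d) (ω.1 e)) t
            (P.rev ω t0 v (l * β ^ (d + 1)) 0)).card < x + 2 := by
          by_contra h7
          rw [not_lt] at h7
          apply hH
          refine ⟨mem_univ _, ?_⟩
          convert h7 using 2
        have hH2 : (heavySet (fun e => pre (r0 + d) (ω.1 e)) t
            (P.rev ω t0 v (l * β ^ (d + 1)) (r0 + d))).card < x + 2 :=
          lt_of_le_of_lt (card_le_card (window_main_heavy_mono _ _
            (rev_mono P ω t0 v le_rfl (Nat.zero_le _)))) hH1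
        have hL1 : (lightSet (fun e => pre (r0 + d) (ω.1 e)) t
              (P.rev ω t0 v (l * β ^ (d + 1)) (r0 + d))).card <
            x + ((lightSet (fun e => pre (r0 + d) (ω.1 e)) t
              (P.rev ω t0 v (l * β ^ (d + 1)) (r0 + d))).image
                (g ⟨r0 + d, hr'⟩ ω)).card := by
          by_contra h7
          rw [not_lt] at h7
          apply hL
          refine ⟨mem_univ _, hR, ?_⟩
          convert h7 using 2
        have himg : ((lightSet (fun e => pre (r0 + d) (ω.1 e)) t
              (P.rev ω t0 v (l * β ^ (d + 1)) (r0 + d))).image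
                (g ⟨r0 + d, hr'⟩ ω)).card ≤
            ((P.rev ω t0 v (l * β ^ (d + 1)) (r0 + d)).image
              (g ⟨r0 + d, hr'⟩ ω)).card :=
          card_le_card (image_subset_image (filter_subset _ _))
        have hsum := window_main_card_le (fun e => pre (r0 + d) (ω.1 e)) t
          (P.rev ω t0 v (l * β ^ (d + 1)) (r0 + d))
        have h6 : (P.rev ω t0 v (l * β ^ (d + 1)) (r0 + d)).card <
            (2 * x + 1) + ((P.rev ω t0 v (l * β ^ (d + 1)) (r0 + d)).image
              (g ⟨r0 + d, hr'⟩ ω)).card := by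
          omega
        have h8 := window_main_succ P ω ⟨r0 + d, hr'⟩ t0 v (l * β ^ (d + 1)) (2 * x + 1) h6
        dsimp only at h8
        rw [← Nat.add_assoc]
        omega
    intro t0 v hT
    have h9 := main (k - r0) (by omega) t0 v hT
    have hk1 : r0 + (k - r0) = k := by omega
    rw [hk1] at h9
    exact h9

end Pool.Agent.Helper21.MX
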