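import Pool.Agent.Helper21.MX.Mach
import Pool.Agent.Helper89.MX.Asym

/-!
# The final bound
-/

set_option autoImplicit false

namespace Pool.Agent.Helper21.MX

open Pool.Agent.Helper8.PR

/-- Real register machines with sparse and dense comparisons. -/
theorem asymMach (d c s b : ℕ) (w σ ε : ℝ) (hd : 1 ≤ d) (hw : 0 ≤ w) (hσ : 0 ≤ σ) (hε : 0 < ε)
    (h : (d + 1) * (5 + max w (2 * s + b)) + 2 * d * (d + 1) +
      d * max w (s * (ε + σ)) * (2 / ε + 2) < c) :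
    ∃ δ : ℝ, 0 < δ ∧ ∃ n₀ : ℕ, ∀ n : ℕ, n₀ ≤ n → ∀ a κ C K D r R : ℕ,
      (a : ℝ) ≤ (n : ℝ) ^ δ → (κ : ℝ) ≤ (n : ℝ) ^ δ →
      ((min K (C * D) : ℕ) : ℝ) ≤ (n : ℝ) ^ w → Real.logb 2 C ≤ (n : ℝ) ^ σ →
      ∀ A : Mach n D r R, WithinM A c C K d s κ (n ^ b) a → A.Decides c →
        (n : ℝ) ^ (3 - ε) ≤ D * (1 + Real.logb 2 C) :=
  asymMach_of d c s b w σ ε hd (asymM d c s b w σ ε hd hw hσ hε h)

end Pool.Agent.Helper21.MX
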