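import Pool.Agent.Helper23.SP.Basic
import Pool.Agent.Helper54.SP.Put

/-!
# Mates by hash values, and processes that look at few elements

The random data are the digits of the elements and, for every level, a hash function of the cells.
-/

set_option autoImplicit false

namespace Pool.Agent.Helper21.MX

open Finset
open Pool.Agent.Helper23.SP (pre Om g put)
open Pool.Agent.Helper54.SP (g_put_lt g_put_self g_put_gt)

variable {El : Type} [DecidableEq El] {k b U : ℕ} [NeZero b]

open Classical in
/-- The elements of `S` that are revealed on level `r`: all of them for `r = 0`, and on level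
`r + 1` those revealed on level `r` that have a mate there (another element of `S` which is
revealed on level `r` and has the same hash value of its first `r + 1` digits). -/
noncomputable def hm (S : Finset El) (ω : Om El k b U) : ℕ → Finset El
  | 0 => S
  | r + 1 => (hm S ω r).filter fun e => ∀ i : Fin k, i.val = r →
      ∃ e' ∈ hm S ω r, e' ≠ e ∧ g i ω e' = g i ω e

lemma hm_zero (S : Finset El) (ω : Om El k b U) : hm S ω 0 = S := rfl

lemma mem_hm_succ {S : Finset El} {ω : Om El k b U} {r : ℕ} {e : El} :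
    e ∈ hm S ω (r + 1) ↔ e ∈ hm S ω r ∧ ∀ i : Fin k, i.val = r →
      ∃ e' ∈ hm S ω r, e' ≠ e ∧ g i ω e' = g i ω e := by
  show e ∈ (hm S ω r).filter _ ↔ _
  rw [mem_filter]

lemma hm_succ_subset (S : Finset El) (ω : Om El k b U) (r : ℕ) : hm S ω (r + 1) ⊆ hm S ω r :=
  fun _ he => (mem_hm_succ.1 he).1

lemma hm_anti (S : Finset El) (ω : Om El k b U) {r r' : ℕ} (hr : r ≤ r') :
    hm S ω r' ⊆ hm S ω r := by
  induction r', hr using Nat.le_induction with
  | base => exact Subset.refl _
  | succ r' _ ih => exact (hm_succ_subset S ω r').trans ih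

lemma hm_subset (S : Finset El) (ω : Om El k b U) (r : ℕ) : hm S ω r ⊆ S :=
  hm_anti S ω (Nat.zero_le r)

/-- The revealed elements depend only on the hash values. -/
lemma hm_congr (S : Finset El) {ω ω' : Om El k b U} {r : ℕ}
    (h : ∀ i : Fin k, i.val < r → ∀ e ∈ hm S ω i.val, g i ω e = g i ω' e) :
    hm S ω r = hm S ω' r := by
  induction r with
  | zero => rfl
  | succ r ih =>
    have ih' := ih fun i hi => h i (by omega)
    ext e
    rw [mem_hm_succ, mem_hm_succ, ← ih']
    refine and_congr_right fun he => forall_congr' fun i => forall_congr' fun hi => ?_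
    have h1 := h i (by omega)
    rw [hi] at h1
    refine exists_congr fun e' => and_congr_right fun he' => and_congr_right fun _ => ?_
    rw [h1 e' he', h1 e he]

/-- Replacing the data of level `r` does not change the elements revealed up to level `r`. -/
lemma hm_put_le {r : Fin k} {r' : ℕ} (hr : r' ≤ r.val) (S : Finset El) (ω : Om El k b U)
    (ξ : (El → Fin b) × ((Fin k → Fin b) → Fin U)) : hm S (put r ω ξ) r' = hm S ω r' :=
  hm_congr S fun i hi _ _ => g_put_lt (lt_of_lt_of_le hi hr) ω ξ _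

/-- The hash value of a revealed element depends only on the new data of the elements revealed on
level `r`. -/
lemma g_put_congr {r : Fin k} (S : Finset El) (ω : Om El k b U)
    {ξ ξ' : (El → Fin b) × ((Fin k → Fin b) → Fin U)}
    (h : ∀ e ∈ hm S ω r.val, ξ.1 e = ξ'.1 e ∧
      ξ.2 (Function.update (pre r.val (ω.1 e)) r (ξ.1 e)) =
        ξ'.2 (Function.update (pre r.val (ω.1 e)) r (ξ'.1 e)))
    (i : Fin k) (e : El) (he : e ∈ hm S (put r ω ξ) i.val) :
    g i (put r ω ξ) e = g i (put r ω ξ') e := by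
  rcases lt_trichotomy i.val r.val with h1 | h1 | h1
  · rw [g_put_lt h1, g_put_lt h1]
  · have h2 : i = r := Fin.ext h1
    subst h2
    rw [hm_put_le le_rfl] at he
    rw [g_put_self, g_put_self, (h e he).2]
  · have h2 := hm_anti S (put r ω ξ) h1.le he
    rw [hm_put_le le_rfl] at h2
    exact g_put_gt h1 ω (h e h2).1

lemma hm_put_congr {r : Fin k} (r' : ℕ) (S : Finset El) (ω : Om El k b U)
    {ξ ξ' : (El → Fin b) × ((Fin k → Fin b) → Fin U)}
    (h : ∀ e ∈ hm S ω r.val, ξ.1 e = ξ'.1 e ∧
      ξ.2 (Function.update (pre r.val (ω.1 e)) r (ξ.1 e)) =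
        ξ'.2 (Function.update (pre r.val (ω.1 e)) r (ξ'.1 e))) :
    hm S (put r ω ξ) r' = hm S (put r ω ξ') r' :=
  hm_congr S fun i _ e he => g_put_congr S ω h i e he

/-- An element of `S` that is not revealed on level `k` is lost on exactly one level. -/
lemma exists_level {S : Finset El} {ω : Om El k b U} {e : El} (he : e ∈ S)
    (hk : e ∉ hm S ω k) : ∃ i : Fin k, e ∈ hm S ω i.val ∧ e ∉ hm S ω (i.val + 1) := by
  classical
  have hex : ∃ r, e ∉ hm S ω r := ⟨k, hk⟩
  have h0 : Nat.find hex ≠ 0 := by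
    intro h
    have := Nat.find_spec hex
    rw [h, hm_zero] at this
    exact this he
  obtain ⟨i, hi⟩ := Nat.exists_eq_succ_of_ne_zero h0
  have h1 : Nat.find hex ≤ k := Nat.find_min' hex hk
  have h2 := Nat.find_spec hex
  have h3 := Nat.find_min hex (m := i) (by omega)
  rw [not_not] at h3
  refine ⟨⟨i, by omega⟩, h3, ?_⟩
  rw [hi] at h2
  exact h2

/-- An element lost on level `i + 1` has no other element revealed on level `i` with the same hash
value. -/
lemma ne_of_lost {S : Finset El} {ω : Om El k b U} {e : El} {i : Fin k}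
    (h1 : e ∈ hm S ω i.val) (h2 : e ∉ hm S ω (i.val + 1)) {e' : El} (he' : e' ∈ hm S ω i.val)
    (hne : e' ≠ e) : g i ω e' ≠ g i ω e := by
  intro h
  apply h2
  rw [mem_hm_succ]
  refine ⟨h1, fun j hj => ?_⟩
  have hji : j = i := Fin.ext hj
  subst hji
  exact ⟨e', he', hne, h⟩

/-- Two elements with the same digits are revealed on all levels. -/
lemma mem_hm_of_twin {S : Finset El} {ω : Om El k b U} {e e' : El} (he : e ∈ S) (he' : e' ∈ S)
    (hne : e' ≠ e) (hd : ω.1 e' = ω.1 e) (r : ℕ) : e ∈ hm S ω r ∧ e' ∈ hm S ω r := by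
  induction r with
  | zero => exact ⟨he, he'⟩
  | succ r ih =>
    have hg : ∀ i : Fin k, g i ω e' = g i ω e := by
      intro i
      unfold g
      rw [hd]
    rw [mem_hm_succ, mem_hm_succ]
    exact ⟨⟨ih.1, fun i _ => ⟨e', ih.2, hne, hg i⟩⟩,
      ⟨ih.2, fun i _ => ⟨e, ih.1, hne.symm, (hg i).symm⟩⟩⟩

/-! ## Processes -/

/-- A process with states in `V`: at time `t` in state `v` it looks at the elements `S t v`. -/
structure HProc (El : Type) (k b U : ℕ) (V : Type) where
  S : ℕ → V → Finset El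
  nx : ℕ → V → Om El k b U → V

variable {V : Type}

/-- The next state depends on the data of level `r` only of the elements revealed on level `r`. -/
structure HProc.OK (P : HProc El k b U V) (s : ℕ) : Prop where
  card_le : ∀ t v, (P.S t v).card ≤ s
  full : ∀ t v (ω ω' : Om El k b U), ω.2 = ω'.2 → (∀ e ∈ P.S t v, ω.1 e = ω'.1 e) →
    P.nx t v ω = P.nx t v ω'
  loc : ∀ t v (r : Fin k) (ω : Om El k b U) (ξ ξ' : (El → Fin b) × ((Fin k → Fin b) → Fin U)),
    (∀ e ∈ hm (P.S t v) ω r.val, ξ.1 e = ξ'.1 e ∧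
      ξ.2 (Function.update (pre r.val (ω.1 e)) r (ξ.1 e)) =
        ξ'.2 (Function.update (pre r.val (ω.1 e)) r (ξ'.1 e))) →
    P.nx t v (put r ω ξ) = P.nx t v (put r ω ξ')

/-- The state after `i` steps, when the process is started at time `t0` in state `v`. -/
def HProc.st (P : HProc El k b U V) (ω : Om El k b U) (t0 : ℕ) (v : V) : ℕ → V
  | 0 => v
  | i + 1 => P.nx (t0 + i) (P.st ω t0 v i) ω

/-- The elements revealed on level `r` in a window of `τ` steps. -/
noncomputable def HProc.rev (P : HProc El k b U V) (ω : Om El k b U) (t0 : ℕ) (v : V)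
    (τ r : ℕ) : Finset El :=
  (range τ).biUnion fun i => hm (P.S (t0 + i) (P.st ω t0 v i)) ω r

lemma st_succ (P : HProc El k b U V) (ω : Om El k b U) (t0 : ℕ) (v : V) (i : ℕ) :
    P.st ω t0 v (i + 1) = P.nx (t0 + i) (P.st ω t0 v i) ω := rfl

lemma st_add (P : HProc El k b U V) (ω : Om El k b U) (t0 : ℕ) (v : V) (i j : ℕ) :
    P.st ω t0 v (i + j) = P.st ω (t0 + i) (P.st ω t0 v i) j := by
  induction j with
  | zero => rfl
  | succ j ih =>
    rw [← Nat.add_assoc, st_succ, st_succ, ih, Nat.add_assoc]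

lemma mem_rev {P : HProc El k b U V} {ω : Om El k b U} {t0 : ℕ} {v : V} {τ r : ℕ}
    {e : El} : e ∈ P.rev ω t0 v τ r ↔
      ∃ i, i < τ ∧ e ∈ hm (P.S (t0 + i) (P.st ω t0 v i)) ω r := by
  unfold HProc.rev
  rw [mem_biUnion]
  simp only [mem_range]

lemma rev_mono (P : HProc El k b U V) (ω : Om El k b U) (t0 : ℕ) (v : V)
    {τ τ' r r' : ℕ} (hτ : τ ≤ τ') (hr : r' ≤ r) : P.rev ω t0 v τ r ⊆ P.rev ω t0 v τ' r' := by
  intro e he
  rw [mem_rev] at he ⊢
  obtain ⟨i, hi, h⟩ := he
  exact ⟨i, by omega, hm_anti _ _ hr h⟩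

lemma rev_card_le {P : HProc El k b U V} {s : ℕ} (hP : P.OK s) (ω : Om El k b U) (t0 : ℕ)
    (v : V) (τ r : ℕ) : (P.rev ω t0 v τ r).card ≤ s * τ := by
  unfold HProc.rev
  refine card_biUnion_le.trans ?_
  refine (sum_le_sum (fun i _ => (card_le_card (hm_subset _ _ _)).trans (hP.card_le _ _))).trans ?_
  rw [sum_const, card_range, smul_eq_mul, mul_comm]

/-- A long window consists of `N` short windows. -/
lemma rev_mul_card (P : HProc El k b U V) (ω : Om El k b U) (t0 : ℕ) (v : V)
    (N l r c : ℕ)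
    (h : ∀ j < N, (P.rev ω (t0 + j * l) (P.st ω t0 v (j * l)) l r).card ≤ c) :
    (P.rev ω t0 v (N * l) r).card ≤ N * c := by
  have hsub : P.rev ω t0 v (N * l) r ⊆ (range N).biUnion
      (fun j => P.rev ω (t0 + j * l) (P.st ω t0 v (j * l)) l r) := by
    intro e he
    rw [mem_rev] at he
    obtain ⟨i, hi, h⟩ := he
    rw [mem_biUnion]
    have hl : 0 < l := by
      rcases Nat.eq_zero_or_pos l with h0 | h0
      · subst h0; simp at hi
      · exact h0
    have hdm := Nat.div_add_mod i l
    refine ⟨i / l, mem_range.2 ?_, ?_⟩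
    · rw [Nat.div_lt_iff_lt_mul hl]; exact hi
    · rw [mem_rev]
      have e1 : t0 + i / l * l + i % l = t0 + i := by
        rw [Nat.add_assoc, mul_comm (i / l) l, hdm]
      have e2 : P.st ω (t0 + i / l * l) (P.st ω t0 v (i / l * l)) (i % l) =
          P.st ω t0 v i := by
        rw [← st_add, mul_comm (i / l) l, hdm]
      refine ⟨i % l, Nat.mod_lt _ hl, ?_⟩
      rw [e1, e2]; exact h
  refine (card_le_card hsub).trans (card_biUnion_le.trans ?_)
  refine (sum_le_sum (fun j hj => h j (mem_range.1 hj))).trans ?_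
  rw [sum_const, card_range, smul_eq_mul]

end Pool.Agent.Helper21.MX
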