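import Pool.Agent.Helper12.MX.Sim

/-!
# The bound for real register machines
-/

set_option autoImplicit false

namespace Pool.Agent.Helper21.MX

open Finset
open Pool.Agent.Helper22.ETModel Pool.Agent.Helper22.TSModel
open Pool.Agent.Helper8.PR
open Pool.Agent.Helper8.PQ (PolQ polFam DecidesC)

/-- Real register machines with sparse and dense comparisons, from the bound for algorithms
without registers. -/
theorem asymMach_of (d c s b : ℕ) (w σ ε : ℝ) (hd : 1 ≤ d)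
    (hasym : ∃ δ : ℝ, 0 < δ ∧ ∃ n₀ : ℕ, ∀ n : ℕ, n₀ ≤ n → ∀ a κ K D W R : ℕ,
      (a : ℝ) ≤ (n : ℝ) ^ δ → (κ : ℝ) ≤ (n : ℝ) ^ δ → (K : ℝ) ≤ (n : ℝ) ^ w →
      Real.logb 2 W ≤ (n : ℝ) ^ σ → ∀ A : Alg n D W R (PolQ n d a) SignType,
        DecidesC A (polFam n d a) c → FewM A s κ (n ^ b) K →
          (n : ℝ) ^ (3 - ε) ≤ D * (1 + Real.logb 2 W)) :
    ∃ δ : ℝ, 0 < δ ∧ ∃ n₀ : ℕ, ∀ n : ℕ, n₀ ≤ n → ∀ a κ C K D r R : ℕ,
      (a : ℝ) ≤ (n : ℝ) ^ δ → (κ : ℝ) ≤ (n : ℝ) ^ δ →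
      ((min K (C * D) : ℕ) : ℝ) ≤ (n : ℝ) ^ w → Real.logb 2 C ≤ (n : ℝ) ^ σ →
      ∀ A : Mach n D r R, WithinM A c C K d s κ (n ^ b) a → A.Decides c →
        (n : ℝ) ^ (3 - ε) ≤ D * (1 + Real.logb 2 C) := by
  obtain ⟨δ, hδ, n₀, hmain⟩ := hasym
  refine ⟨δ, hδ, n₀, fun n hn a κ C K D r R ha hκ hK hC A hA hdec => ?_⟩
  have hA' : WithinM A c C (min K (C * D)) d s κ (n ^ b) a := by
    rcases le_total K (C * D) with h1 | h1
    · rw [min_eq_left h1]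
      exact hA
    · rw [min_eq_right h1]
      exact hA.trivial
  obtain ⟨A', hA1, hA2⟩ := simulateM hd A hA' hdec
  exact hmain n hn a κ (min K (C * D)) D C R ha hκ hK hC A' hA2 hA1

end Pool.Agent.Helper21.MX
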